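import Mathlib

/-!
# The Jacobi-symbol determinant `{3,2}_n` for `n = 3 (mod 8)`

For every positive integer `n` congruent to `3` modulo `8` the determinant `{3,2}_n` equals
`(phi(n)/2) * x^2` for an integer `x`.

Outline of the proof.
* `n` not prime: the determinant is `0`.  Some prime `q = 3 (mod 4)` divides `n`; if `q^2` divides `n`
  two rows coincide, and otherwise `k ↦ (k/q)` on the multiples of `n/q` is a null vector.
* `n = p` prime: with `f(t) = ((t+1)(t+2)/p)` the entries are `f(j/k)`.  Writing the units as plus or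
  minus squares, the determinant is the product of two cofactors of circulant matrices with zero row
  sums over a cyclic group of odd order `m = (p-1)/2`.  One of them is, after a cyclic shift of the
  rows, skew-symmetric, so its cofactors are perfect squares; the other one is, after the same
  shift, a product of two skew-symmetric circulants with zero row sums, which gives `m * y^2`.
-/

open scoped Matrix

namespace Pool.Agent.Results.MP_72abcc_nt.CurlyThreeTwo

/-- The determinant `{c,d}_n = det [ ((j^2 + c j k + d k^2) / n) ]`, where `( / n)` is the Jacobi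
symbol and `j`, `k` run over the integers with `1 < j, k < n - 1` (the matrix is
`(n-3) × (n-3)`; it is empty, with determinant `1`, for `n = 3`). -/
def curlyDet (c d : ℤ) (n : ℕ) : ℤ :=
  (Matrix.of fun j k : {i : ℕ // i ∈ Finset.Ioo 1 (n - 1)} =>
    jacobiSym ((j.1 : ℤ) ^ 2 + c * (j.1 : ℤ) * (k.1 : ℤ) + d * (k.1 : ℤ) ^ 2) n).det



theorem skew_det_isSquare_aux (n : ℕ) : ∀ (α : Type) [Fintype α] [DecidableEq α],
    Fintype.card α = n → ∀ M : Matrix α α ℚ, Mᵀ = -M → IsSquare M.det := by
  induction n using Nat.strong_induction_on with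
  | _ n ih =>
    intro α _ _ hn M hM
    have hent : ∀ i j, M j i = - M i j := by
      intro i j
      have := congrFun (congrFun hM i) j
      simpa using this
    by_cases h0 : M = 0
    · subst h0
      rcases isEmpty_or_nonempty α with h | h
      · simp
      · rw [Matrix.det_zero]; exact ⟨0, by simp⟩
    · obtain ⟨i, j, hij⟩ : ∃ i j, M i j ≠ 0 := by
        by_contra hcon
        push Not at hcon
        exact h0 (by ext i j; simpa using hcon i j)
      have hdiag : ∀ i, M i i = 0 := by
        intro i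
        have := hent i i
        linarith
      have hne : i ≠ j := by
        rintro rfl
        exact hij (hdiag i)
      let g : Fin 2 ⊕ {x : α // x ≠ i ∧ x ≠ j} → α := Sum.elim ![i, j] Subtype.val
      have hg : Function.Bijective g := by
        constructor
        · rintro (a | a) (b | b) hab
          · have hab' : (![i, j] : Fin 2 → α) a = ![i, j] b := hab
            fin_cases a <;> fin_cases b
            · rfl
            · exact absurd hab' hne
            · exact absurd hab' hne.symm
            · rfl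
          · exfalso
            have hb := b.2
            fin_cases a
            · exact hb.1 (by simpa [g] using hab.symm)
            · exact hb.2 (by simpa [g] using hab.symm)
          · exfalso
            have hb := a.2
            fin_cases b
            · exact hb.1 (by simpa [g] using hab)
            · exact hb.2 (by simpa [g] using hab)
          · simp only [g, Sum.elim_inr] at hab
            rw [Subtype.ext hab]
        · intro x
          by_cases hx : x = i
          · exact ⟨Sum.inl 0, by simp [g, hx]⟩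
          · by_cases hx' : x = j
            · exact ⟨Sum.inl 1, by simp [g, hx']⟩
            · exact ⟨Sum.inr ⟨x, hx, hx'⟩, by simp [g]⟩
      let e := Equiv.ofBijective g hg
      have hcard : Fintype.card {x : α // x ≠ i ∧ x ≠ j} < n := by
        have := Fintype.card_congr e
        rw [Fintype.card_sum, Fintype.card_fin, hn] at this
        omega
      rw [← Matrix.det_submatrix_equiv_self e M]
      set N := M.submatrix e e with hN
      have hNs : ∀ a b, N b a = - N a b := fun a b => by simp [hN, hent (e a) (e b)]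
      rw [← Matrix.fromBlocks_toBlocks N]
      set A := N.toBlocks₁₁ with hA
      set B := N.toBlocks₁₂ with hB
      set C := N.toBlocks₂₁ with hC
      set D := N.toBlocks₂₂ with hD
      have e0 : e (Sum.inl 0) = i := rfl
      have e1 : e (Sum.inl 1) = j := rfl
      have hAdet : A.det = (M i j)^2 := by
        rw [Matrix.det_fin_two]
        simp only [hA, Matrix.toBlocks₁₁, Matrix.of_apply, hN, Matrix.submatrix_apply, e0, e1, hdiag,
          hent i j]
        ring
      have hAu : IsUnit A.det := by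
        rw [hAdet]; exact (pow_ne_zero 2 hij).isUnit
      let _ : Invertible A := Matrix.invertibleOfIsUnitDet A hAu
      rw [Matrix.det_fromBlocks₁₁]
      refine IsSquare.mul ⟨M i j, by rw [hAdet]; ring⟩ ?_
      refine ih _ hcard _ rfl _ ?_
      have hAt : Aᵀ = -A := by ext a b; simp [hA, Matrix.toBlocks₁₁, hNs (Sum.inl a) (Sum.inl b)]
      have hBt : Bᵀ = -C := by ext a b; simp [hB, hC, Matrix.toBlocks₁₂, Matrix.toBlocks₂₁, hNs (Sum.inr a) (Sum.inl b)]
      have hCt : Cᵀ = -B := by ext a b; simp [hB, hC, Matrix.toBlocks₁₂, Matrix.toBlocks₂₁, hNs (Sum.inl a) (Sum.inr b)]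
      have hDt : Dᵀ = -D := by ext a b; simp [hD, Matrix.toBlocks₂₂, hNs (Sum.inr a) (Sum.inr b)]
      have hAi : (A⁻¹)ᵀ = -A⁻¹ := by
        rw [Matrix.transpose_nonsing_inv, hAt]
        apply Matrix.inv_eq_right_inv
        rw [neg_mul_neg, Matrix.mul_nonsing_inv _ hAu]
      rw [Matrix.invOf_eq_nonsing_inv, Matrix.transpose_sub, Matrix.transpose_mul, Matrix.transpose_mul, hBt, hCt, hDt, hAi]
      simp only [Matrix.neg_mul, Matrix.mul_neg, neg_neg, neg_sub, Matrix.mul_assoc]
      abel

theorem skew_det_isSquare {α : Type} [Fintype α] [DecidableEq α] (M : Matrix α α ℤ)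
    (hM : ∀ i j, M j i = - M i j) : IsSquare M.det := by
  have h := skew_det_isSquare_aux _ α rfl (M.map (Int.castRingHom ℚ)) (by
    ext i j
    simp [hM i j])
  rw [← RingHom.mapMatrix_apply, ← RingHom.map_det] at h
  simpa using h

theorem adj_row {α : Type} [Fintype α] [DecidableEq α] (M : Matrix α α ℤ)
    (hr : ∀ i, ∑ j, M i j = 0) (i i' j : α) : M.adjugate i j = M.adjugate i' j := by
  rw [← sub_eq_zero, Matrix.adjugate_apply, Matrix.adjugate_apply]
  have h1 : (M.updateRow j (Pi.single i 1)).det - (M.updateRow j (Pi.single i' 1)).det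
      = (M.updateRow j (Pi.single i 1 - Pi.single i' 1)).det := by
    rw [sub_eq_iff_eq_add, ← Matrix.det_updateRow_add, sub_add_cancel]
  rw [h1, ← Matrix.exists_mulVec_eq_zero_iff]
  have : Nonempty α := ⟨i⟩
  refine ⟨fun _ => 1, ?_, ?_⟩
  · intro h
    exact one_ne_zero (congrFun h i)
  · ext a
    simp only [Matrix.mulVec, dotProduct, mul_one, Pi.zero_apply]
    by_cases ha : a = j
    · subst ha
      simp [Matrix.updateRow_self]
    · rw [Matrix.updateRow_ne ha]
      exact hr a

theorem adj_const {α : Type} [Fintype α] [DecidableEq α] (M : Matrix α α ℤ)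
    (hr : ∀ i, ∑ j, M i j = 0) (hc : ∀ j, ∑ i, M i j = 0) (i j i' j' : α) :
    M.adjugate i j = M.adjugate i' j' := by
  rw [adj_row M hr i i' j]
  have := adj_row Mᵀ hc j j' i'
  rw [← Matrix.adjugate_transpose] at this
  exact this

theorem adj_principal {α : Type} [Fintype α] [DecidableEq α] (M : Matrix α α ℤ) (i : α) :
    M.adjugate i i = (M.submatrix (Subtype.val : {x : α // x ≠ i} → α) Subtype.val).det := by
  rw [Matrix.adjugate_apply,
    Matrix.twoBlockTriangular_det (M.updateRow i (Pi.single i 1)) (fun x => x ≠ i)]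
  · have h2 : ((M.updateRow i (Pi.single i 1)).toSquareBlockProp fun x => ¬ (x ≠ i)).det = 1 := by
      let _ : Unique {x : α // ¬ (x ≠ i)} :=
        ⟨⟨⟨i, by simp⟩⟩, fun x => Subtype.ext (not_not.mp x.2)⟩
      rw [Matrix.det_unique]
      have : ((default : {x : α // ¬ (x ≠ i)}) : α) = i := not_not.mp (default : {x : α // ¬ (x ≠ i)}).2
      simp [Matrix.toSquareBlockProp, this]
    rw [h2, mul_one]
    congr 1
    ext a b
    show (M.updateRow i (Pi.single i 1)) a.1 b.1 = M a.1 b.1
    rw [Matrix.updateRow_ne a.2]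
  · intro a ha b hb
    have ha' : a = i := not_not.mp ha
    subst ha'
    rw [Matrix.updateRow_self]
    exact Pi.single_eq_of_ne hb 1

/-- A zero-row-sum skew matrix has all cofactors equal to one perfect square. -/
theorem skew_adj {α : Type} [Fintype α] [DecidableEq α] (M : Matrix α α ℤ)
    (hs : ∀ i j, M j i = - M i j) (i : α) : IsSquare (M.adjugate i i) := by
  rw [adj_principal]
  exact skew_det_isSquare _ fun a b => hs _ _

section ZModSection

variable {m : ℕ} [NeZero m]

theorem shift_adj (hm : Odd m) (c : ZMod m → ℤ) (hc : ∑ x, c x = 0) (ρ : ZMod m) :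
    (Matrix.of fun a b : ZMod m => c (ρ + (a - b))).adjugate 0 0
      = (Matrix.of fun a b : ZMod m => c (a - b)).adjugate 0 0 := by
  set C : Matrix (ZMod m) (ZMod m) ℤ := Matrix.of fun a b : ZMod m => c (a - b) with hC
  set σ : Equiv.Perm (ZMod m) := Equiv.addLeft ρ with hσ
  set P : Matrix (ZMod m) (ZMod m) ℤ := (1 : Matrix (ZMod m) (ZMod m) ℤ).submatrix σ id with hP
  have hK : (Matrix.of fun a b : ZMod m => c (ρ + (a - b))) = P * C := by
    ext a b
    simp only [Matrix.of_apply, Matrix.mul_apply, hP, Matrix.submatrix_apply, Matrix.one_apply, hσ,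
      Equiv.coe_addLeft, id, ite_mul, one_mul, zero_mul, hC]
    rw [Finset.sum_ite_eq]
    simp [add_sub_assoc]
  have hrow : ∀ a, ∑ b, C a b = 0 := by
    intro a
    rw [← hc]
    exact Equiv.sum_comp (Equiv.subLeft a) c
  have hcol : ∀ b, ∑ a, C a b = 0 := by
    intro b
    rw [← hc]
    exact Equiv.sum_comp (Equiv.subRight b) c
  have hsign : Equiv.Perm.sign σ = 1 := by
    have h0 : ∀ (n : ℕ) (x : ZMod m), (σ ^ n) x = (n : ZMod m) * ρ + x := by
      intro n
      induction n with
      | zero => intro x; simp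
      | succ n ih =>
        intro x
        rw [pow_succ, Equiv.Perm.mul_apply, ih, hσ, Equiv.coe_addLeft]
        push_cast
        ring
    have h1 : σ ^ m = 1 := by
      ext x
      rw [h0]
      simp
    have h2 : (Equiv.Perm.sign σ) ^ m = 1 := by
      rw [← map_pow, h1, map_one]
    rcases Int.units_eq_one_or (Equiv.Perm.sign σ) with h | h
    · exact h
    · rw [h, hm.neg_one_pow] at h2
      exact absurd h2 (by decide)
  have hdetP : P.det = 1 := by
    rw [hP, Matrix.det_permute, hsign]
    simp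
  have hsumP : ∀ j, ∑ i, P.adjugate i j = 1 := by
    intro j
    have h3 : (fun _ => (1 : ℤ)) ᵥ* P = fun _ => 1 := by
      ext b
      simp only [Matrix.vecMul, dotProduct, one_mul, hP, Matrix.submatrix_apply, Matrix.one_apply,
        id]
      rw [Finset.sum_eq_single (σ.symm b)]
      · simp
      · intro a _ ha
        rw [if_neg]
        intro h
        exact ha (by rw [← h]; simp)
      · simp
    have h4 : ((fun _ => (1 : ℤ)) ᵥ* P) ᵥ* P.adjugate = fun _ => 1 := by
      rw [Matrix.vecMul_vecMul, Matrix.mul_adjugate, hdetP, one_smul, Matrix.vecMul_one]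
    rw [h3] at h4
    have := congrFun h4 j
    simpa [Matrix.vecMul, dotProduct] using this
  rw [hK, Matrix.adjugate_mul_distrib, Matrix.mul_apply]
  have : ∀ j, C.adjugate 0 j = C.adjugate 0 0 := fun j => adj_const C hrow hcol _ _ _ _
  simp_rw [this]
  rw [← Finset.mul_sum, hsumP, mul_one]

theorem lemmaA (hm : Odd m) (c : ZMod m → ℤ) (hc : ∑ x, c x = 0) (ρ : ZMod m)
    (hρ : ∀ a, c (ρ - a) = - c (ρ + a)) :
    IsSquare ((Matrix.of fun a b : {x : ZMod m // x ≠ 0} => c (a.1 - b.1)).det) := by
  have h1 := adj_principal (Matrix.of fun a b : ZMod m => c (a - b)) 0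
  have h2 : ((Matrix.of fun a b : ZMod m => c (a - b)).submatrix
    (Subtype.val : {x : ZMod m // x ≠ 0} → ZMod m) Subtype.val)
      = (Matrix.of fun a b : {x : ZMod m // x ≠ 0} => c (a.1 - b.1)) := rfl
  rw [← h2, ← h1, ← shift_adj hm c hc ρ]
  apply skew_adj
  intro i j
  simp only [Matrix.of_apply]
  rw [← hρ]
  congr 1
  ring

theorem sum_range_zmod (g : ZMod m → ℤ) : ∑ i ∈ Finset.range m, g (i : ZMod m) = ∑ z, g z := by
  refine Finset.sum_nbij' (fun i => (i : ZMod m)) (fun z => z.val) ?_ ?_ ?_ ?_ ?_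
  · simp
  · intro z _
    simpa using ZMod.val_lt z
  · intro i hi
    simpa using ZMod.val_cast_of_lt (Finset.mem_range.mp hi)
  · simp
  · simp

/-- antiderivative of an even, zero-sum function. -/
theorem exists_prim (hm : Odd m) (F : ZMod m → ℤ) (hF : ∑ x, F x = 0) (hev : ∀ a, F (-a) = F a) :
    ∃ k : ZMod m → ℤ, (∀ y, F y = k (y - 1) - k (y + 1)) ∧ ∀ y, k (-y) = - k y := by
  obtain ⟨t, ht⟩ := hm
  set half : ZMod m := ((t + 1 : ℕ) : ZMod m) with hhalf
  have h2 : (2 : ZMod m) * half = 1 := by
    rw [hhalf]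
    have : ((2 * (t + 1) : ℕ) : ZMod m) = 1 := by
      have : 2 * (t + 1) = m + 1 := by omega
      rw [this]; simp
    rw [← this]; push_cast; ring
  set G : ℕ → ℤ := fun j => ∑ i ∈ Finset.range j, F (2 * (i : ZMod m) + 1) with hG
  have hGm : G m = 0 := by
    rw [hG]
    simp only
    rw [sum_range_zmod (fun z => F (2 * z + 1)), ← hF]
    have hinj : Function.Injective (fun z : ZMod m => 2 * z + 1) := by
      intro a b hab
      have : half * (2 * a) = half * (2 * b) := by
        rw [add_right_cancel hab]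
      rw [← mul_assoc, ← mul_assoc, mul_comm half 2, h2, one_mul, one_mul] at this
      exact this
    exact (Finite.injective_iff_bijective.mp hinj).sum_comp F
  have hper : ∀ j, G (j + m) = G j := by
    intro j
    have : G (m + j) = G m + G j := by
      rw [hG]
      simp only
      rw [Finset.sum_range_add]
      congr 1
      apply Finset.sum_congr rfl
      intro i _
      simp
    rw [add_comm, this, hGm, zero_add]
  have hmod : ∀ j, G (j % m) = G j := by
    intro j
    have : ∀ q r, G (r + m * q) = G r := by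
      intro q
      induction q with
      | zero => simp
      | succ q ih => intro r; rw [Nat.mul_succ, ← add_assoc, hper, ih]
    conv_rhs => rw [← Nat.mod_add_div j m]
    rw [this]
  set h : ZMod m → ℤ := fun z => G z.val with hh
  have hstep : ∀ z, h (z + 1) = h z + F (2 * z + 1) := by
    intro z
    have h5 : (z + 1).val = (z.val + 1) % m := by
      conv_lhs => rw [← ZMod.natCast_zmod_val z]
      rw [← Nat.cast_one, ← Nat.cast_add, ZMod.val_natCast]
    simp only [hh, h5, hmod]
    simp only [hG]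
    rw [Finset.sum_range_succ]
    simp
  have h0 : h 0 = 0 := by simp [hh, hG]
  have hodd : ∀ z, h (-z) = - h z := by
    have key : ∀ n : ℕ, h (-(n : ZMod m)) + h (n : ZMod m) = 0 := by
      intro n
      induction n with
      | zero => simp [h0]
      | succ n ih =>
        have e1 := hstep (n : ZMod m)
        have e2 := hstep (-((n : ZMod m) + 1))
        rw [show -((n : ZMod m) + 1) + 1 = -(n : ZMod m) by ring] at e2
        rw [show 2 * -((n : ZMod m) + 1) + 1 = -(2 * (n : ZMod m) + 1) by ring, hev] at e2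
        push_cast
        linarith
    intro z
    have := key z.val
    rw [ZMod.natCast_zmod_val] at this
    linarith
  refine ⟨fun y => - h (half * y), ?_, ?_⟩
  · intro y
    have := hstep (half * (y - 1))
    rw [show half * (y - 1) + 1 = half * (y + 1) by linear_combination (-1 : ZMod m) * h2,
      show 2 * (half * (y - 1)) + 1 = y by linear_combination (y - 1) * h2] at this
    simp only
    linarith
  · intro y
    simp only
    rw [mul_neg, hodd]

theorem lemmaB (hm : Odd m) (c : ZMod m → ℤ) (hc : ∑ x, c x = 0) (ρ : ZMod m)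
    (hρ : ∀ a, c (ρ - a) = c (ρ + a)) :
    ∃ y : ℤ, (Matrix.of fun a b : {x : ZMod m // x ≠ 0} => c (a.1 - b.1)).det = m * (y * y) := by
  have h1 := adj_principal (Matrix.of fun a b : ZMod m => c (a - b)) 0
  have h2 : ((Matrix.of fun a b : ZMod m => c (a - b)).submatrix
    (Subtype.val : {x : ZMod m // x ≠ 0} → ZMod m) Subtype.val)
      = (Matrix.of fun a b : {x : ZMod m // x ≠ 0} => c (a.1 - b.1)) := rfl
  rw [← h2, ← h1, ← shift_adj hm c hc ρ]
  obtain ⟨k, hk1, hk2⟩ := exists_prim hm (fun y => c (ρ + y))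
    (by rw [← hc]; exact Equiv.sum_comp (Equiv.addLeft ρ) c)
    (by intro a; show c (ρ + -a) = c (ρ + a); rw [← sub_eq_add_neg, hρ])
  set A : Matrix (ZMod m) (ZMod m) ℤ := Matrix.of fun a x =>
    (if x = a - 1 then 1 else 0) - (if x = a + 1 then 1 else 0) with hA
  set K : Matrix (ZMod m) (ZMod m) ℤ := Matrix.of fun a b => k (a - b) with hK
  have hprod : (Matrix.of fun a b : ZMod m => c (ρ + (a - b))) = A * K := by
    ext a b
    simp only [Matrix.of_apply, Matrix.mul_apply, hA, hK, sub_mul, ite_mul, one_mul, zero_mul,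
      Finset.sum_sub_distrib, Finset.sum_ite_eq', Finset.mem_univ, if_true]
    rw [hk1 (a - b)]
    congr 2 <;> ring
  have hAs : ∀ a x, A x a = - A a x := by
    intro a x
    simp only [hA, Matrix.of_apply]
    have e1 : (a = x - 1) ↔ (x = a + 1) := by
      constructor
      · rintro rfl; ring
      · rintro rfl; ring
    have e2 : (a = x + 1) ↔ (x = a - 1) := by
      constructor
      · rintro rfl; ring
      · rintro rfl; ring
    simp only [e1, e2]
    ring
  have hKs : ∀ a x, K x a = - K a x := by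
    intro a x
    simp only [hK, Matrix.of_apply]
    rw [← hk2, neg_sub]
  have hAr : ∀ a, ∑ x, A a x = 0 := by
    intro a
    simp [hA, Finset.sum_sub_distrib]
  have hAc : ∀ x, ∑ a, A a x = 0 := by
    intro x
    have : ∑ a, A a x = - ∑ a, A x a := by
      rw [← Finset.sum_neg_distrib]
      exact Finset.sum_congr rfl fun a _ => hAs x a
    rw [this, hAr, neg_zero]
  have hksum : ∑ y, k y = 0 := by
    have : ∑ y, k y = - ∑ y, k y := by
      conv_lhs => rw [← Equiv.sum_comp (Equiv.neg (ZMod m)) k]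
      rw [← Finset.sum_neg_distrib]
      exact Finset.sum_congr rfl fun a _ => hk2 a
    linarith
  have hKr : ∀ a, ∑ x, K a x = 0 := by
    intro a
    rw [← hksum]
    exact Equiv.sum_comp (Equiv.subLeft a) k
  have hKc : ∀ x, ∑ a, K a x = 0 := by
    intro x
    rw [← hksum]
    exact Equiv.sum_comp (Equiv.subRight x) k
  obtain ⟨u, hu⟩ := skew_adj A hAs 0
  obtain ⟨v, hv⟩ := skew_adj K hKs 0
  refine ⟨u * v, ?_⟩
  rw [hprod, Matrix.adjugate_mul_distrib, Matrix.mul_apply]
  have e1 : ∀ j, K.adjugate 0 j = K.adjugate 0 0 := fun j => adj_const K hKr hKc _ _ _ _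
  have e2 : ∀ j, A.adjugate j 0 = A.adjugate 0 0 := fun j => adj_const A hAr hAc _ _ _ _
  simp_rw [e1, e2, hu, hv]
  rw [Finset.sum_const, Finset.card_univ, ZMod.card]
  simp only [nsmul_eq_mul]
  ring

end ZModSection

theorem det_sym_blocks {α : Type} [Fintype α] [DecidableEq α] (P Q : Matrix α α ℤ) :
    (Matrix.fromBlocks P Q Q P).det = (P + Q).det * (P - Q).det := by
  have h : Matrix.fromBlocks 1 (-1) 0 1 * Matrix.fromBlocks P Q Q P * Matrix.fromBlocks 1 1 0 1
      = Matrix.fromBlocks (P - Q) 0 Q (P + Q) := by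
    rw [Matrix.fromBlocks_multiply, Matrix.fromBlocks_multiply]
    congr 1
    · simp [sub_eq_add_neg]
    · simp
    · simp
    · simp [add_comm]
  have h2 := congrArg Matrix.det h
  rw [Matrix.det_mul, Matrix.det_mul, Matrix.det_fromBlocks_zero₂₁, Matrix.det_fromBlocks_zero₂₁,
    Matrix.det_fromBlocks_zero₁₂] at h2
  simp only [Matrix.det_one, mul_one, one_mul] at h2
  rw [h2, mul_comm]

section Prime

variable (p : ℕ) [Fact p.Prime]

/-- `f t = χ((t+1)(t+2))` -/
def fchi (t : ZMod p) : ℤ := quadraticChar (ZMod p) ((t + 1) * (t + 2))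

variable {p}

theorem chi_neg_one (hp : p % 8 = 3) : quadraticChar (ZMod p) (-1) = -1 := by
  have h2 : p ≠ 2 := by rintro rfl; simp at hp
  rw [quadraticChar_neg_one (by rwa [ZMod.ringChar_zmod_n]), ZMod.card, ZMod.χ₄_nat_three_mod_four]
  omega

theorem chi_two (hp : p % 8 = 3) : quadraticChar (ZMod p) 2 = -1 := by
  have h2 : p ≠ 2 := by rintro rfl; simp at hp
  rw [quadraticChar_two (by rwa [ZMod.ringChar_zmod_n]), ZMod.card, ZMod.χ₈_nat_eq_if_mod_eight]
  simp [hp, show p % 2 = 1 by omega]

theorem fchi_inv (hp : p % 8 = 3) (t : ZMod p) (ht : t ≠ 0) : fchi p (2 / t) = - fchi p t := by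
  unfold fchi
  have : (2 / t + 1) * (2 / t + 2) = 2 * ((t + 1) * (t + 2)) * (t⁻¹ * t⁻¹) := by
    field_simp
    ring
  rw [this, map_mul, map_mul, chi_two hp, map_mul (quadraticChar (ZMod p)) t⁻¹,
    ← pow_two (quadraticChar (ZMod p) t⁻¹), quadraticChar_sq_one (inv_ne_zero ht)]
  ring

theorem sum_fchi_chi (hp : p % 8 = 3) :
    ∑ t : ZMod p, fchi p t * quadraticChar (ZMod p) t = 0 := by
  have h : ∑ t : ZMod p, fchi p t * quadraticChar (ZMod p) t
      = - ∑ t : ZMod p, fchi p t * quadraticChar (ZMod p) t := by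
    conv_lhs => rw [← Equiv.sum_comp (Equiv.subLeft (-2 : ZMod p))]
    rw [← Finset.sum_neg_distrib]
    refine Finset.sum_congr rfl fun t _ => ?_
    simp only [fchi, Equiv.subLeft_apply]
    rw [← map_mul, ← map_mul,
      show (-2 - t + 1) * (-2 - t + 2) * (-2 - t) = (-1) * ((t + 1) * (t + 2) * t) by ring,
      map_mul, chi_neg_one hp]
    ring
  linarith

/-- The parametrisation of nonzero squares by `ZMod m`. -/
theorem exists_param (hp : p % 8 = 3) (m : ℕ) [NeZero m] (hm : 2 * m + 1 = p) :
    ∃ E : ZMod m → ZMod p, Function.Injective E ∧ (∀ a b, E (a - b) = E a / E b) ∧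
      (∀ a b, E (a + b) = E a * E b) ∧
      (∀ a, quadraticChar (ZMod p) (E a) = 1) ∧
      (∀ t, quadraticChar (ZMod p) t = 1 → ∃ a, E a = t) := by
  obtain ⟨γ, hγ⟩ := IsCyclic.exists_generator (α := (ZMod p)ˣ)
  have hord : orderOf γ = 2 * m := by
    rw [orderOf_eq_card_of_forall_mem_zpowers hγ, Nat.card_eq_fintype_card, ZMod.card_units]
    omega
  have hm0 : m ≠ 0 := NeZero.ne m
  have hmodd : Odd m := ⟨(m - 1) / 2, by omega⟩
  have hδ : (γ ^ 2) ^ m = 1 := by
    rw [← pow_mul, ← hord, pow_orderOf_eq_one]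
  let φ : ZMod m →+ Additive (ZMod p)ˣ := ZMod.lift m ⟨zmultiplesHom _ (Additive.ofMul (γ ^ 2)), by
    simp only [zmultiplesHom_apply, natCast_zsmul]
    rw [← ofMul_pow, hδ, ofMul_one]⟩
  have hφ : ∀ n : ℤ, φ (n : ZMod m) = Additive.ofMul ((γ ^ 2) ^ n) := by
    intro n
    simp [φ, ZMod.lift_coe]
  have hinj : Function.Injective φ := by
    rw [injective_iff_map_eq_zero]
    intro a ha
    obtain ⟨n, rfl⟩ := ZMod.intCast_surjective a
    rw [hφ] at ha
    have h1 : (γ ^ 2) ^ n = 1 := ha
    rw [← zpow_natCast, ← zpow_mul] at h1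
    have h2 := orderOf_dvd_iff_zpow_eq_one.mpr h1
    rw [hord] at h2
    push_cast at h2
    have h3 : (m : ℤ) ∣ n := by
      exact (mul_dvd_mul_iff_left (by norm_num)).mp h2
    exact (ZMod.intCast_zmod_eq_zero_iff_dvd n m).mpr h3
  refine ⟨fun a => ((φ a).toMul : (ZMod p)ˣ), ?_, ?_, ?_, ?_, ?_⟩
  · intro a b hab
    apply hinj
    have := Units.ext hab
    exact this
  · intro a b
    simp only [map_sub, toMul_sub, Units.val_div_eq_div_val]
  · intro a b
    simp only [map_add, toMul_add, Units.val_mul]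
  · intro a
    obtain ⟨n, rfl⟩ := ZMod.intCast_surjective a
    simp only [hφ, toMul_ofMul]
    have : (((γ ^ 2) ^ n : (ZMod p)ˣ) : ZMod p) = (((γ ^ n : (ZMod p)ˣ)) : ZMod p) ^ 2 := by
      rw [← Units.val_pow_eq_pow_val]
      congr 1
      rw [← zpow_natCast, ← zpow_natCast, ← zpow_mul, ← zpow_mul, mul_comm]
    rw [this]
    exact quadraticChar_sq_one' (Units.ne_zero _)
  · intro t ht
    have ht0 : t ≠ 0 := by
      rintro rfl
      simp at ht
    rw [quadraticChar_one_iff_isSquare ht0] at ht
    obtain ⟨s, rfl⟩ := ht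
    have hs0 : s ≠ 0 := by rintro rfl; simp at ht0
    obtain ⟨n, hn⟩ := hγ (Units.mk0 s hs0)
    refine ⟨(n : ZMod m), ?_⟩
    simp only [hφ, toMul_ofMul]
    have h1 : s = ((γ ^ n : (ZMod p)ˣ) : ZMod p) := by
      simp only at hn
      rw [hn]; rfl
    rw [h1, ← Units.val_mul]
    congr 1
    rw [← zpow_natCast, ← zpow_mul, ← zpow_add]
    congr 1
    push_cast
    ring


theorem entry (j k : ℕ) (hk : (k : ZMod p) ≠ 0) :
    jacobiSym ((j : ℤ) ^ 2 + 3 * (j : ℤ) * (k : ℤ) + 2 * (k : ℤ) ^ 2) p
      = fchi p ((j : ZMod p) / (k : ZMod p)) := by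
  rw [← jacobiSym.legendreSym.to_jacobiSym, legendreSym, fchi]
  push_cast
  have : (j : ZMod p) ^ 2 + 3 * j * k + 2 * k ^ 2
      = ((j : ZMod p) / k + 1) * ((j : ZMod p) / k + 2) * k ^ 2 := by
    field_simp
    ring
  rw [this, map_mul, quadraticChar_sq_one' hk, mul_one]

theorem val_mem (t : ZMod p) (h0 : t ≠ 0) (h1 : t ≠ 1) (h2 : t ≠ -1) :
    t.val ∈ Finset.Ioo 1 (p - 1) := by
  have hp := (Fact.out : p.Prime).two_le
  have a0 : t.val ≠ 0 := by
    rwa [Ne, ZMod.val_eq_zero]
  have a1 : t.val ≠ 1 := by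
    intro h
    apply h1
    rw [← ZMod.natCast_zmod_val t, h, Nat.cast_one]
  have a2 : t.val ≠ p - 1 := by
    intro h
    apply h2
    rw [← ZMod.natCast_zmod_val t, h, Nat.cast_sub (by omega)]
    simp
  have a3 := ZMod.val_lt t
  rw [Finset.mem_Ioo]
  omega

theorem prime_case (hp : p % 8 = 3) :
    ∃ x : ℤ, curlyDet 3 2 p = (((p - 1) / 2 : ℕ) : ℤ) * x ^ 2 := by
  set m := (p - 1) / 2 with hm
  have hm1 : 2 * m + 1 = p := by omega
  have : NeZero m := ⟨by omega⟩
  have hmodd : Odd m := ⟨(m - 1) / 2, by omega⟩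
  obtain ⟨E, hEinj, hEsub, hEadd, hEchi, hEsurj⟩ := exists_param hp m hm1
  have hE0 : ∀ a, E a ≠ 0 := by
    intro a h
    have := hEchi a
    rw [h] at this
    simp at this
  have hEzero : E 0 = 1 := by
    have := hEsub 0 0
    rwa [sub_zero, div_self (hE0 0)] at this
  have hneg : ∀ a b, E a ≠ - E b := by
    intro a b h
    have := hEchi a
    rw [h, neg_eq_neg_one_mul, map_mul, chi_neg_one hp, hEchi] at this
    norm_num at this
  -- the index bijection
  let g : {a : ZMod m // a ≠ 0} ⊕ {a : ZMod m // a ≠ 0} → ZMod p :=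
    Sum.elim (fun a => E a.1) (fun a => - E a.1)
  have hg0 : ∀ x, g x ≠ 0 := by
    rintro (a | a)
    · exact hE0 _
    · exact neg_ne_zero.mpr (hE0 _)
  have hgmem : ∀ x, (g x).val ∈ Finset.Ioo 1 (p - 1) := by
    intro x
    apply val_mem
    · exact hg0 x
    · rcases x with a | a
      · intro h
        exact a.2 (hEinj (by rw [hEzero]; exact h))
      · intro h
        apply hneg 0 a.1
        rw [hEzero]; exact h.symm
    · rcases x with a | a
      · intro h
        apply hneg a.1 0
        rw [hEzero]; exact h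
      · intro h
        refine a.2 (hEinj ?_)
        rw [hEzero]
        exact neg_injective h
  have hginj : Function.Injective g := by
    rintro (a | a) (b | b) h
    · rw [Subtype.ext (hEinj h)]
    · exact absurd h (hneg _ _)
    · exact absurd h.symm (hneg _ _)
    · rw [Subtype.ext (hEinj (neg_injective h))]
  let Ψ : {a : ZMod m // a ≠ 0} ⊕ {a : ZMod m // a ≠ 0} → {i : ℕ // i ∈ Finset.Ioo 1 (p - 1)} :=
    fun x => ⟨(g x).val, hgmem x⟩
  have hΨ : Function.Bijective Ψ := by
    rw [Fintype.bijective_iff_injective_and_card]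
    constructor
    · intro x y h
      apply hginj
      apply ZMod.val_injective p
      exact congrArg Subtype.val h
    · have hcard : Fintype.card {a : ZMod m // a ≠ 0} = m - 1 := by
        rw [Fintype.card_subtype, Finset.filter_ne', Finset.card_erase_of_mem (Finset.mem_univ _),
          Finset.card_univ, ZMod.card]
      rw [Fintype.card_sum, hcard, Fintype.card_coe, Nat.card_Ioo]
      omega
  unfold curlyDet
  rw [← Matrix.det_submatrix_equiv_self (Equiv.ofBijective Ψ hΨ)]
  set P : Matrix {a : ZMod m // a ≠ 0} {a : ZMod m // a ≠ 0} ℤ :=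
    Matrix.of fun a b => fchi p (E (a.1 - b.1)) with hP
  set Q : Matrix {a : ZMod m // a ≠ 0} {a : ZMod m // a ≠ 0} ℤ :=
    Matrix.of fun a b => fchi p (- E (a.1 - b.1)) with hQ
  have hblocks : (Matrix.of fun j k : {i : ℕ // i ∈ Finset.Ioo 1 (p - 1)} =>
      jacobiSym ((j.1 : ℤ) ^ 2 + 3 * (j.1 : ℤ) * (k.1 : ℤ) + 2 * (k.1 : ℤ) ^ 2) p).submatrix
        (Equiv.ofBijective Ψ hΨ) (Equiv.ofBijective Ψ hΨ) = Matrix.fromBlocks P Q Q P := by
    ext x y
    simp only [Matrix.submatrix_apply, Matrix.of_apply, Equiv.ofBijective_apply, Ψ]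
    rw [entry _ _ (by rw [ZMod.natCast_zmod_val]; exact hg0 y), ZMod.natCast_zmod_val,
      ZMod.natCast_zmod_val]
    rcases x with a | a <;> rcases y with b | b
    · simp [g, hP, hEsub]
    · simp [g, hQ, hEsub, div_neg]
    · simp [g, hQ, hEsub, neg_div]
    · simp [g, hP, hEsub, neg_div_neg_eq]
  rw [hblocks, det_sym_blocks]
  -- the shift
  obtain ⟨ρ, hρ⟩ : ∃ ρ, E ρ ^ 2 = -2 := by
    have h1 : quadraticChar (ZMod p) (-2) = 1 := by
      rw [neg_eq_neg_one_mul, map_mul, chi_neg_one hp, chi_two hp]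
      norm_num
    have h20 : (-2 : ZMod p) ≠ 0 := by
      intro h
      rw [h] at h1
      simp at h1
    rw [quadraticChar_one_iff_isSquare h20] at h1
    obtain ⟨u, hu⟩ := h1
    have hu0 : u ≠ 0 := by
      rintro rfl
      simp at hu
      rw [hu] at h20
      simp at h20
    rcases quadraticChar_dichotomy hu0 with h | h
    · obtain ⟨ρ, rfl⟩ := hEsurj u h
      exact ⟨ρ, by rw [hu]; ring⟩
    · obtain ⟨ρ, hρ⟩ := hEsurj (-u) (by rw [neg_eq_neg_one_mul, map_mul, chi_neg_one hp, h]; norm_num)
      exact ⟨ρ, by rw [hρ, hu]; ring⟩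
  have hprod : ∀ a, E (ρ - a) * E (ρ + a) = -2 := by
    intro a
    rw [← hEadd, show ρ - a + (ρ + a) = ρ + ρ by ring, hEadd, ← hρ]
    ring
  have key : ∀ a, fchi p (E (ρ - a)) = - fchi p (- E (ρ + a)) := by
    intro a
    have h1 := fchi_inv hp _ (hE0 (ρ - a))
    rw [show (2 : ZMod p) / E (ρ - a) = - E (ρ + a) by
      rw [div_eq_iff (hE0 _)]; linear_combination hprod a] at h1
    linarith
  have key2 : ∀ a, fchi p (- E (ρ - a)) = - fchi p (E (ρ + a)) := by
    intro a
    have h1 := fchi_inv hp _ (neg_ne_zero.mpr (hE0 (ρ - a)))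
    rw [show (2 : ZMod p) / (- E (ρ - a)) = E (ρ + a) by
      rw [div_eq_iff (neg_ne_zero.mpr (hE0 _))]; linear_combination (hprod a)] at h1
    linarith
  -- even part
  have hA := lemmaA hmodd (fun a => fchi p (E a) + fchi p (- E a)) (by
      have h1 : ∑ x, (fchi p (E x) + fchi p (- E x)) = - ∑ x, (fchi p (E x) + fchi p (- E x)) := by
        conv_lhs => rw [← Equiv.sum_comp (Equiv.subLeft (ρ + ρ))]
        rw [← Finset.sum_neg_distrib]
        refine Finset.sum_congr rfl fun x _ => ?_
        simp only [Equiv.subLeft_apply]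
        have e1 := key (x - ρ)
        have e2 := key2 (x - ρ)
        rw [show ρ - (x - ρ) = ρ + ρ - x by ring, show ρ + (x - ρ) = x by ring] at e1 e2
        rw [e1, e2]
        ring
      linarith) ρ (by
      intro a
      rw [key, key2]
      ring)
  -- odd part
  have hB := lemmaB hmodd (fun a => fchi p (E a) - fchi p (- E a)) (by
      have h1 := sum_fchi_chi hp
      let G : ZMod m ⊕ ZMod m → {t : ZMod p // t ≠ 0} :=
        Sum.elim (fun a => ⟨E a, hE0 a⟩) (fun a => ⟨- E a, neg_ne_zero.mpr (hE0 a)⟩)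
      have hG : Function.Bijective G := by
        constructor
        · rintro (a | a) (b | b) h
          · rw [hEinj (congrArg Subtype.val h)]
          · exact absurd (congrArg Subtype.val h) (hneg _ _)
          · exact absurd (congrArg Subtype.val h).symm (hneg _ _)
          · rw [hEinj (neg_injective (congrArg Subtype.val h))]
        · rintro ⟨t, ht⟩
          rcases quadraticChar_dichotomy ht with h | h
          · obtain ⟨a, ha⟩ := hEsurj t h
            exact ⟨Sum.inl a, Subtype.ext ha⟩
          · obtain ⟨a, ha⟩ := hEsurj (-t)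
              (by rw [neg_eq_neg_one_mul, map_mul, chi_neg_one hp, h]; norm_num)
            refine ⟨Sum.inr a, Subtype.ext ?_⟩
            show - E a = t
            rw [ha, neg_neg]
      have h2 : ∑ t : ZMod p, fchi p t * quadraticChar (ZMod p) t
          = ∑ t : {t : ZMod p // t ≠ 0}, fchi p t.1 * quadraticChar (ZMod p) t.1 := by
        rw [← Finset.sum_subtype (Finset.univ.filter (fun t : ZMod p => t ≠ 0)) (by simp)
          (fun t => fchi p t * quadraticChar (ZMod p) t), Finset.sum_filter_of_ne]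
        intro t _ ht h0
        apply ht
        rw [h0]
        simp
      rw [h2, ← hG.sum_comp, Fintype.sum_sum_type] at h1
      rw [← h1, Finset.sum_sub_distrib, sub_eq_add_neg, ← Finset.sum_neg_distrib]
      congr 1
      · refine Finset.sum_congr rfl fun a _ => ?_
        simp [G, hEchi]
      · refine Finset.sum_congr rfl fun a _ => ?_
        have : quadraticChar (ZMod p) (- E a) = -1 := by
          rw [neg_eq_neg_one_mul, map_mul, chi_neg_one hp, hEchi]; norm_num
        simp [G, this]) ρ (by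
      intro a
      rw [key, key2]
      ring)
  obtain ⟨u, hu⟩ := hA
  obtain ⟨v, hv⟩ := hB
  have hPQ : P + Q = Matrix.of fun a b : {x : ZMod m // x ≠ 0} =>
      (fun a => fchi p (E a) + fchi p (- E a)) (a.1 - b.1) := by
    ext a b
    simp [hP, hQ]
  have hPQ' : P - Q = Matrix.of fun a b : {x : ZMod m // x ≠ 0} =>
      (fun a => fchi p (E a) - fchi p (- E a)) (a.1 - b.1) := by
    ext a b
    simp [hP, hQ]
  refine ⟨u * v, ?_⟩
  rw [hPQ, hPQ', hu, hv]
  ring

end Prime

section Composite

theorem exists_prime_three_mod_four (n : ℕ) (hn : n % 4 = 3) :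
    ∃ q, q.Prime ∧ q % 4 = 3 ∧ q ∣ n := by
  induction n using Nat.strong_induction_on with
  | _ n ih =>
    have hn1 : n ≠ 1 := by omega
    obtain ⟨p, hp, N, rfl⟩ := Nat.exists_prime_and_dvd hn1
    have hmul : (p % 4) * (N % 4) % 4 = 3 := by rw [← Nat.mul_mod]; exact hn
    have h1 : p % 4 < 4 := Nat.mod_lt _ (by norm_num)
    have h2 : N % 4 < 4 := Nat.mod_lt _ (by norm_num)
    by_cases h3 : p % 4 = 3
    · exact ⟨p, hp, h3, dvd_mul_right _ _⟩
    · have h4 : N % 4 = 3 := by
        interval_cases h5 : p % 4 <;> interval_cases h6 : N % 4 <;> simp_all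
      have hN0 : 0 < N := by omega
      have hlt : N < p * N := by
        have := hp.two_le
        nlinarith
      obtain ⟨q, hq, hq4, hqN⟩ := ih N hlt h4
      exact ⟨q, hq, hq4, hqN.mul_left p⟩

theorem sum_chi_shift (q : ℕ) [Fact q.Prime] (hq : q % 4 = 3) (j : ZMod q) :
    ∑ a : ZMod q, quadraticChar (ZMod q) (j ^ 2 + 3 * j * a + 2 * a ^ 2)
      * quadraticChar (ZMod q) a = 0 := by
  have h2 : q ≠ 2 := by rintro rfl; simp at hq
  have hneg : quadraticChar (ZMod q) (-1) = -1 := by
    rw [quadraticChar_neg_one (by rwa [ZMod.ringChar_zmod_n]), ZMod.card,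
      ZMod.χ₄_nat_three_mod_four hq]
  set S := ∑ a : ZMod q, quadraticChar (ZMod q) (j ^ 2 + 3 * j * a + 2 * a ^ 2)
      * quadraticChar (ZMod q) a with hS
  have h : S = - S := by
    conv_lhs => rw [hS, ← Equiv.sum_comp (Equiv.subLeft (-j : ZMod q))]
    rw [hS, ← Finset.sum_neg_distrib]
    refine Finset.sum_congr rfl fun t _ => ?_
    simp only [Equiv.subLeft_apply]
    rw [← map_mul, ← map_mul,
      show (j ^ 2 + 3 * j * (-j - t) + 2 * (-j - t) ^ 2) * (-j - t)
        = (-1) * ((j ^ 2 + 3 * j * t + 2 * t ^ 2) * t) by ring,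
      map_mul, hneg]
    ring
  linarith

theorem curlyDet_sq (n q : ℕ) (hn : n % 8 = 3) (hq : q.Prime) (hqn : q * q ∣ n) :
    curlyDet 3 2 n = 0 := by
  obtain ⟨r, hr⟩ := hqn
  have hr0 : r ≠ 0 := by rintro rfl; omega
  have hq2 : q ≠ 2 := by rintro rfl; omega
  have hq3 : 3 ≤ q := by have := hq.two_le; omega
  set N := q * r with hN
  have hnN : n = q * N := by rw [hr, hN]; ring
  have hqN : q ∣ N := dvd_mul_right _ _
  have hN3 : 3 ≤ N := by
    have : 1 ≤ r := Nat.one_le_iff_ne_zero.mpr hr0
    nlinarith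
  have hbig : 3 * N ≤ n := by rw [hnN]; exact Nat.mul_le_mul_right _ hq3
  have hdep : ∀ x y : ℤ, x % (N : ℤ) = y % (N : ℤ) → jacobiSym x n = jacobiSym y n := by
    intro x y hxy
    have : NeZero q := ⟨hq.ne_zero⟩
    have : NeZero N := ⟨by omega⟩
    rw [hnN, jacobiSym.mul_right x q N, jacobiSym.mul_right y q N]
    congr 1
    · apply jacobiSym.mod_left'
      have : (q : ℤ) ∣ (N : ℤ) := by exact_mod_cast hqN
      exact Int.ModEq.of_dvd this hxy
    · exact jacobiSym.mod_left' hxy
  unfold curlyDet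
  have m1 : 2 ∈ Finset.Ioo 1 (n - 1) := by rw [Finset.mem_Ioo]; omega
  have m2 : 2 + N ∈ Finset.Ioo 1 (n - 1) := by rw [Finset.mem_Ioo]; omega
  refine Matrix.det_zero_of_row_eq (i := ⟨2, m1⟩) (j := ⟨2 + N, m2⟩) ?_ ?_
  · intro h
    have := congrArg Subtype.val h
    simp only at this
    omega
  · ext k
    simp only [Matrix.of_apply]
    apply hdep
    push_cast
    apply Int.ModEq.symm
    apply (Int.modEq_iff_dvd).mpr
    refine ⟨-(2 * 2 + N + 3 * k.1), ?_⟩
    ring

theorem curlyDet_simple (n q : ℕ) (hn : n % 8 = 3) [Fact q.Prime] (hq4 : q % 4 = 3) (hqn : q ∣ n)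
    (hq2 : ¬ q * q ∣ n) (hne : n ≠ q) : curlyDet 3 2 n = 0 := by
  have hq : q.Prime := Fact.out
  obtain ⟨N, rfl⟩ := hqn
  have hqN : ¬ q ∣ N := fun h => hq2 (Nat.mul_dvd_mul_left q h)
  have hN1 : N ≠ 1 := by rintro rfl; simp at hne
  have hN0 : N ≠ 0 := by rintro rfl; simp at hn
  have hN2 : N ≠ 2 := by rintro rfl; omega
  have hN3 : 3 ≤ N := by omega
  have hq3 : 3 ≤ q := by omega
  have hNq : 3 * N ≤ q * N := Nat.mul_le_mul_right _ hq3
  have : NeZero N := ⟨hN0⟩
  have : NeZero q := ⟨hq.ne_zero⟩
  have hNunit : (N : ZMod q) ≠ 0 := by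
    rw [Ne, ZMod.natCast_eq_zero_iff]
    exact hqN
  unfold curlyDet
  rw [← Matrix.exists_mulVec_eq_zero_iff]
  let w : ℕ → ℤ := fun k => if N ∣ k then quadraticChar (ZMod q) (k : ZMod q) else 0
  refine ⟨fun k => w k.1, ?_, ?_⟩
  · intro h
    have hmem : N ∈ Finset.Ioo 1 (q * N - 1) := by rw [Finset.mem_Ioo]; omega
    have := congrFun h ⟨N, hmem⟩
    simp only [w, dvd_refl, if_true, Pi.zero_apply] at this
    rw [quadraticChar_eq_zero_iff] at this
    exact hNunit this
  · ext j
    simp only [Matrix.mulVec, dotProduct, Matrix.of_apply, Pi.zero_apply]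
    set g : ℕ → ℤ := fun k => jacobiSym ((j.1 : ℤ) ^ 2 + 3 * (j.1 : ℤ) * (k : ℤ) + 2 * (k : ℤ) ^ 2)
      (q * N) * w k with hg
    have e1 : ∑ k : {i : ℕ // i ∈ Finset.Ioo 1 (q * N - 1)}, g k.1
        = ∑ k ∈ Finset.Ioo 1 (q * N - 1), g k := Finset.sum_coe_sort _ g
    have e2 : ∑ k ∈ Finset.Ioo 1 (q * N - 1), g k
        = ∑ k ∈ (Finset.Ioo 0 q).image (fun u => N * u), g k := by
      symm
      apply Finset.sum_subset
      · intro k hk
        obtain ⟨u, hu, rfl⟩ := Finset.mem_image.mp hk
        rw [Finset.mem_Ioo] at hu ⊢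
        constructor
        · nlinarith
        · have : N * u + N ≤ q * N := by
            have : u + 1 ≤ q := hu.2
            nlinarith
          omega
      · intro k hk hk'
        simp only [hg, w]
        rw [if_neg, mul_zero]
        rintro ⟨u, rfl⟩
        apply hk'
        rw [Finset.mem_image]
        refine ⟨u, ?_, rfl⟩
        rw [Finset.mem_Ioo] at hk ⊢
        constructor
        · rcases Nat.eq_zero_or_pos u with h | h
          · subst h; omega
          · exact h
        · by_contra hcon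
          push Not at hcon
          have : q * N ≤ N * u := by nlinarith
          omega
    have e3 : ∑ k ∈ (Finset.Ioo 0 q).image (fun u => N * u), g k
        = ∑ u ∈ Finset.Ioo 0 q, g (N * u) := by
      apply Finset.sum_image
      intro a _ b _ hab
      exact Nat.eq_of_mul_eq_mul_left (by omega) hab
    have e4 : ∑ u ∈ Finset.Ioo 0 q, g (N * u) = ∑ u ∈ Finset.range q, g (N * u) := by
      apply Finset.sum_subset
      · intro u hu
        rw [Finset.mem_Ioo] at hu
        exact Finset.mem_range.mpr hu.2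
      · intro u hu hu'
        have : u = 0 := by
          by_contra h
          apply hu'
          rw [Finset.mem_Ioo]
          exact ⟨Nat.pos_of_ne_zero h, Finset.mem_range.mp hu⟩
        subst this
        simp [hg, w]
    let G : ZMod q → ℤ := fun z => jacobiSym ((j.1 : ℤ) ^ 2) N *
      (quadraticChar (ZMod q) ((j.1 : ZMod q) ^ 2 + 3 * (j.1 : ZMod q) * (N * z) + 2 * (N * z) ^ 2)
        * quadraticChar (ZMod q) (N * z))
    have e5 : ∀ u : ℕ, g (N * u) = G (u : ZMod q) := by
      intro u
      simp only [hg, w, G]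
      rw [if_pos (dvd_mul_right _ _), jacobiSym.mul_right, ← jacobiSym.legendreSym.to_jacobiSym,
        legendreSym]
      have : jacobiSym ((j.1 : ℤ) ^ 2 + 3 * (j.1 : ℤ) * ((N * u : ℕ) : ℤ)
          + 2 * ((N * u : ℕ) : ℤ) ^ 2) N = jacobiSym ((j.1 : ℤ) ^ 2) N := by
        apply jacobiSym.mod_left'
        apply Int.ModEq.symm
        apply (Int.modEq_iff_dvd).mpr
        refine ⟨3 * j.1 * u + 2 * N * u ^ 2, ?_⟩
        push_cast
        ring
      rw [this]
      push_cast
      ring
    have e6 : ∑ u ∈ Finset.range q, g (N * u) = ∑ z, G z := by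
      rw [← sum_range_zmod]
      exact Finset.sum_congr rfl fun u _ => e5 u
    have e7 : ∑ z, G z = 0 := by
      simp only [G]
      rw [← Finset.mul_sum]
      have hbij : Function.Bijective (fun z : ZMod q => (N : ZMod q) * z) :=
        Finite.injective_iff_bijective.mp (mul_right_injective₀ hNunit)
      have := hbij.sum_comp (fun a => quadraticChar (ZMod q)
        ((j.1 : ZMod q) ^ 2 + 3 * (j.1 : ZMod q) * a + 2 * a ^ 2) * quadraticChar (ZMod q) a)
      rw [this, sum_chi_shift q hq4, mul_zero]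
    rw [e1, e2, e3, e4, e6, e7]

theorem composite_case (n : ℕ) (hn : n % 8 = 3) (hnp : ¬ n.Prime) : curlyDet 3 2 n = 0 := by
  obtain ⟨q, hq, hq4, hqn⟩ := exists_prime_three_mod_four n (by omega)
  by_cases h : q * q ∣ n
  · exact curlyDet_sq n q hn hq h
  · have : Fact q.Prime := ⟨hq⟩
    exact curlyDet_simple n q hn hq4 hqn h (by rintro rfl; exact hnp hq)

end Composite

/-- For every positive integer `n` congruent to `3` modulo `8` there is an integer `x` with
`{3,2}_n = (phi(n) / 2) * x^2`. -/
theorem result : ∀ n : ℕ, n % 8 = 3 →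
    ∃ x : ℤ, (curlyDet 3 2 n : ℚ) = (Nat.totient n : ℚ) / 2 * (x : ℚ) ^ 2 := by
  intro n hn
  by_cases hp : n.Prime
  · have : Fact n.Prime := ⟨hp⟩
    obtain ⟨x, hx⟩ := prime_case (p := n) hn
    refine ⟨x, ?_⟩
    rw [hx, Nat.totient_prime hp]
    have h2 : n - 1 = 2 * ((n - 1) / 2) := by omega
    have h3 : ((n - 1 : ℕ) : ℚ) = 2 * (((n - 1) / 2 : ℕ) : ℚ) := by exact_mod_cast h2
    rw [h3, Int.cast_mul, Int.cast_pow, Int.cast_natCast]
    ring
  · exact ⟨0, by rw [composite_case n hn hp]; simp⟩

end Pool.Agent.Results.MP_72abcc_nt.CurlyThreeTwo
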